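import Mathlib

/-!
A Lie algebra generated by three elements whose brackets of length three satisfy the relations of
`t·sl₂[t]` modulo brackets of length at most two is spanned by the standard elements `x a i`.
-/

namespace Q8.Loop

variable {L : Type*} [LieRing L] [LieAlgebra ℂ L]

/-- `xs E a i` (for `a ≥ 1`): `xs E 1 i = E i`, `xs E (a+1) i = [E (i+1), xs E a (i+2)]`.
By convention `xs E 0 i = 0`. -/
def xs (E : Fin 3 → L) : ℕ → Fin 3 → L
  | 0 => fun _ => 0
  | 1 => E
  | (a + 2) => fun i => ⁅E (i + 1), xs E (a + 1) (i + 2)⁆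

/-- span of the `xs E a i` with `a ≤ m` -/
def Sp (E : Fin 3 → L) (m : ℕ) : Submodule ℂ L :=
  Submodule.span ℂ {y | ∃ a ≤ m, ∃ i, y = xs E a i}

lemma Sp_mono (E : Fin 3 → L) {m n : ℕ} (h : m ≤ n) : Sp E m ≤ Sp E n := by
  apply Submodule.span_mono
  rintro y ⟨a, ha, i, rfl⟩
  exact ⟨a, ha.trans h, i, rfl⟩

lemma xs_mem (E : Fin 3 → L) {a m : ℕ} (h : a ≤ m) (i : Fin 3) : xs E a i ∈ Sp E m :=
  Submodule.subset_span ⟨a, h, i, rfl⟩

lemma xs_succ (E : Fin 3 → L) {a : ℕ} (h : 1 ≤ a) (i : Fin 3) :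
    xs E (a + 1) i = ⁅E (i + 1), xs E a (i + 2)⁆ := by
  obtain ⟨b, rfl⟩ := Nat.exists_eq_add_of_le h
  rw [add_comm 1 b]
  rfl

/-- the statement for total length `m` -/
def P (E : Fin 3 → L) (m : ℕ) : Prop :=
  ∀ a b, 1 ≤ a → 1 ≤ b → a + b = m → ∀ i : Fin 3,
    (⁅xs E a i, xs E b (i + 1)⁆ - xs E m (i + 2) ∈ Sp E (m - 1)) ∧
    (⁅xs E a (i + 1), xs E b i⁆ + xs E m (i + 2) ∈ Sp E (m - 1)) ∧
    ⁅xs E a i, xs E b i⁆ ∈ Sp E (m - 1)

lemma P_mem (E : Fin 3 → L) {a b m : ℕ} (ha : 1 ≤ a) (hb : 1 ≤ b) (hab : a + b = m) (hP : P E m)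
    (i j : Fin 3) : ⁅xs E a i, xs E b j⁆ ∈ Sp E m := by
  have hle : Sp E (m - 1) ≤ Sp E m := Sp_mono E (by omega)
  have hx : ∀ k, xs E m k ∈ Sp E m := fun k => xs_mem E le_rfl k
  have cases : j = i + 1 ∨ i = j + 1 ∨ i = j := by
    fin_cases i <;> fin_cases j <;> decide
  rcases cases with rfl | rfl | rfl
  · have := Submodule.add_mem _ (hle (hP a b ha hb hab i).1) (hx (i + 2))
    simpa using this
  · have := Submodule.sub_mem _ (hle (hP a b ha hb hab j).2.1) (hx (j + 2))
    simpa using this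
  · exact hle (hP a b ha hb hab i).2.2

/-- brackets of elements of `Sp` -/
lemma Sp_lie (E : Fin 3 → L) {p q : ℕ} (N : ℕ) (hN : ∀ m, m ≤ N → P E m) (hpq : p + q ≤ N)
    {y z : L} (hy : y ∈ Sp E p) (hz : z ∈ Sp E q) : ⁅y, z⁆ ∈ Sp E (p + q) := by
  induction hy using Submodule.span_induction with
  | mem y hy =>
    obtain ⟨a, ha, i, rfl⟩ := hy
    induction hz using Submodule.span_induction with
    | mem z hz =>
      obtain ⟨b, hb, j, rfl⟩ := hz
      rcases Nat.eq_zero_or_pos a with rfl | ha0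
      · simp [xs]
      rcases Nat.eq_zero_or_pos b with rfl | hb0
      · simp [xs]
      exact Sp_mono E (by omega) (P_mem E ha0 hb0 rfl (hN (a + b) (by omega)) i j)
    | zero => simp
    | add z z' _ _ h h' => rw [lie_add]; exact Submodule.add_mem _ h h'
    | smul c z _ h => rw [lie_smul]; exact Submodule.smul_mem _ c h
  | zero => simp
  | add y y' _ _ h h' => rw [add_lie]; exact Submodule.add_mem _ h h'
  | smul c y _ h => rw [smul_lie]; exact Submodule.smul_mem _ c h

/-- The linear algebra lemma: `B a i j` in an abelian group without torsion. -/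
lemma linear_lemma {M : Type*} [AddCommGroup M] [Module ℂ M] (m : ℕ) (hm : 4 ≤ m)
    (B : ℕ → Fin 3 → Fin 3 → M)
    (hA : ∀ a, 1 ≤ a → a < m → ∀ i j, B a i j = - B (m - a) j i)
    (hJ1 : ∀ a b c, 1 ≤ a → 1 ≤ b → 1 ≤ c → a + b + c = m → ∀ i : Fin 3,
      B a i i + B b (i + 1) (i + 1) + B c (i + 2) (i + 2) = 0)
    (hJ2 : ∀ a b c, 1 ≤ a → 1 ≤ b → 1 ≤ c → a + b + c = m → ∀ i : Fin 3,
      B a i (i + 2) = B b i (i + 2))
    (hJ3 : ∀ a b c, 1 ≤ a → 1 ≤ b → 1 ≤ c → a + b + c = m → ∀ i : Fin 3,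
      B a i (i + 1) = B b i (i + 1)) :
    ∀ a, 1 ≤ a → a < m → ∀ i : Fin 3, B a i i = 0 ∧ B a i (i + 1) = B 1 i (i + 1) ∧
      B a (i + 1) i = - B 1 i (i + 1) := by
  -- off-diagonal entries
  have hoff : ∀ a, 1 ≤ a → a < m → ∀ i : Fin 3, B a i (i + 1) = B 1 i (i + 1) ∧
      B a (i + 1) i = - B 1 i (i + 1) := by
    have h3 : ∀ i : Fin 3, i + 1 + 2 = i := by decide
    have h3' : ∀ i : Fin 3, i + 2 + 1 = i := by decide
    have e1 : ∀ a, 1 ≤ a → a ≤ m - 2 → ∀ i : Fin 3, B a i (i + 1) = B 1 i (i + 1) := by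
      intro a ha ha' i
      exact hJ3 a 1 (m - a - 1) ha le_rfl (by omega) (by omega) i
    have e2 : ∀ a, 1 ≤ a → a ≤ m - 2 → ∀ i : Fin 3, B a (i + 1) i = B 1 (i + 1) i := by
      intro a ha ha' i
      have := hJ2 a 1 (m - a - 1) ha le_rfl (by omega) (by omega) (i + 1)
      rwa [h3] at this
    have e3 : ∀ i : Fin 3, B 1 (i + 1) i = - B 1 i (i + 1) := by
      intro i
      rw [← e2 2 (by omega) (by omega) i, hA 2 (by omega) (by omega), e1 (m - 2) (by omega) le_rfl]
    intro a ha ha' i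
    rcases Nat.lt_or_ge a (m - 1) with h | h
    · exact ⟨e1 a ha (by omega) i, by rw [e2 a ha (by omega) i, e3]⟩
    · have : a = m - 1 := by omega
      subst this
      have hmm : m - (m - 1) = 1 := by omega
      constructor
      · rw [hA (m - 1) ha ha' i (i + 1), hmm, e3, neg_neg]
      · rw [hA (m - 1) ha ha' (i + 1) i, hmm]
  -- diagonal entries
  have hdiag : ∀ a, 1 ≤ a → a < m → ∀ i : Fin 3, B a i i = 0 := by
    have hD : ∀ b c, 1 ≤ b → 1 ≤ c → b + c < m → ∀ i : Fin 3,
        B b i i - B b (i + 1) (i + 1) = B c i i - B c (i + 1) (i + 1) := by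
      intro b c hb hc hbc i
      have h1 := hJ1 b c (m - b - c) hb hc (by omega) (by omega) i
      have h2 := hJ1 c b (m - b - c) hc hb (by omega) (by omega) i
      have : B b i i - B b (i + 1) (i + 1) - (B c i i - B c (i + 1) (i + 1)) =
        (B b i i + B c (i + 1) (i + 1) + B (m - b - c) (i + 2) (i + 2)) -
        (B c i i + B b (i + 1) (i + 1) + B (m - b - c) (i + 2) (i + 2)) := by abel
      rw [h1, h2, sub_zero] at this
      exact sub_eq_zero.1 this
    have hD0 : ∀ a, 1 ≤ a → a < m → ∀ i : Fin 3, B a i i = B a (i + 1) (i + 1) := by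
      have h1 : ∀ i : Fin 3, B 1 i i = B 1 (i + 1) (i + 1) := by
        intro i
        have e1 := hD 1 (m - 2) le_rfl (by omega) (by omega) i
        have e2 := hD 1 2 le_rfl (by omega) (by omega) i
        have e3 : B (m - 2) i i - B (m - 2) (i + 1) (i + 1) =
            - (B 2 i i - B 2 (i + 1) (i + 1)) := by
          rw [hA 2 (by omega) (by omega) i i, hA 2 (by omega) (by omega) (i + 1) (i + 1)]
          abel
        rw [e3, ← e2] at e1
        have e4 : (2 : ℂ) • (B 1 i i - B 1 (i + 1) (i + 1)) = 0 := by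
          rw [two_smul]
          nth_rewrite 1 [e1]
          abel
        exact sub_eq_zero.1 ((smul_eq_zero.1 e4).resolve_left two_ne_zero)
      intro a ha ha' i
      rcases Nat.lt_or_ge a (m - 1) with h | h
      · have e1 := hD a 1 ha le_rfl (by omega) i
        rw [h1 i, sub_self] at e1
        exact sub_eq_zero.1 e1
      · have : a = m - 1 := by omega
        subst this
        have hmm : m - (m - 1) = 1 := by omega
        rw [hA (m - 1) ha ha' i i, hA (m - 1) ha ha' (i + 1) (i + 1), hmm, h1 i]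
    have hall : ∀ a, 1 ≤ a → a < m → ∀ i : Fin 3, B a i i = B a 0 0 := by
      intro a ha ha' i
      have h0 := hD0 a ha ha' 0
      have h1 := hD0 a ha ha' 1
      fin_cases i
      · rfl
      · exact h0.symm
      · exact (h0.trans h1).symm
    have hsum : ∀ a b c, 1 ≤ a → 1 ≤ b → 1 ≤ c → a + b + c = m →
        B a 0 0 + B b 0 0 + B c 0 0 = 0 := by
      intro a b c ha hb hc habc
      have h1 := hJ1 a b c ha hb hc habc 0
      rwa [hall b hb (by omega), hall c hc (by omega)] at h1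
    have hlin : ∀ a, 1 ≤ a → a < m → B a 0 0 = (a : ℂ) • B 1 0 0 := by
      intro a ha
      induction a, ha using Nat.le_induction with
      | base => intro _; simp
      | succ a ha ih =>
        intro ham
        have h1 := hsum a 1 (m - a - 1) ha le_rfl (by omega) (by omega)
        have h2 := hA (m - a - 1) (by omega) (by omega) 0 0
        rw [show m - (m - a - 1) = a + 1 by omega] at h2
        rw [h2, ih (by omega)] at h1
        have h3 : B (a + 1) 0 0 = (a : ℂ) • B 1 0 0 + B 1 0 0 := by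
          rw [← sub_eq_zero, ← neg_eq_zero, ← h1]; abel
        rw [h3]
        push_cast
        rw [add_smul, one_smul]
    have hB1 : B 1 0 0 = 0 := by
      have h1 := hlin (m - 1) (by omega) (by omega)
      have h2 := hA 1 le_rfl (by omega) 0 0
      rw [h1] at h2
      have h3 : (m : ℂ) • B 1 0 0 = 0 := by
        have : (m : ℂ) = 1 + ((m - 1 : ℕ) : ℂ) := by
          have : (m : ℕ) = 1 + (m - 1) := by omega
          exact_mod_cast this
        rw [this, add_smul, one_smul]
        nth_rewrite 1 [h2]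
        simp
      exact (smul_eq_zero.1 h3).resolve_left (by exact_mod_cast (by omega : m ≠ 0))
    intro a ha ha' i
    rw [hall a ha ha', hlin a ha ha', hB1, smul_zero]
  intro a ha ha' i
  exact ⟨hdiag a ha ha' i, hoff a ha ha' i⟩

end Q8.Loop
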