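import Pool.Agent.Q8.Loop.Ind

/-!
Filtered Lie algebras with leading coefficients: the decomposition
`𝓖 = Taylor ⊕ span (xs E a i)`.
-/

set_option linter.unusedSectionVars false

namespace Q8.Loop

variable {L V : Type*} [LieRing L] [LieAlgebra ℂ L] [LieRing V] [LieAlgebra ℂ V]

/-- order at least `p` with respect to the coefficient maps `c` -/
def OrdGE (c : ℤ → L →ₗ[ℂ] V) (p : ℤ) (M : L) : Prop := ∀ k < p, c k M = 0

variable {c : ℤ → L →ₗ[ℂ] V}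

/-- the coefficient maps behave as for Laurent series -/
structure IsCoeff (c : ℤ → L →ₗ[ℂ] V) : Prop where
  lie : ∀ {p q : ℤ} {M N : L}, OrdGE c p M → OrdGE c q N → OrdGE c (p + q) ⁅M, N⁆
  coeff_lie : ∀ {p q : ℤ} {M N : L}, OrdGE c p M → OrdGE c q N →
    c (p + q) ⁅M, N⁆ = ⁅c p M, c q N⁆
  bdd : ∀ M : L, ∃ a : ℕ, OrdGE c (-(a : ℤ)) M

lemma OrdGE.succ {p : ℤ} {M : L} (hM : OrdGE c p M) (h : c p M = 0) : OrdGE c (p + 1) M := by
  intro k hk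
  rcases lt_or_eq_of_le (Int.lt_add_one_iff.1 hk) with h' | rfl
  · exact hM k h'
  · exact h

lemma OrdGE.mono {p q : ℤ} (h : q ≤ p) {M : L} (hM : OrdGE c p M) : OrdGE c q M :=
  fun k hk => hM k (by omega)

lemma OrdGE.add {p : ℤ} {M N : L} (hM : OrdGE c p M) (hN : OrdGE c p N) : OrdGE c p (M + N) :=
  fun k hk => by rw [map_add, hM k hk, hN k hk, add_zero]

lemma OrdGE.sub {p : ℤ} {M N : L} (hM : OrdGE c p M) (hN : OrdGE c p N) : OrdGE c p (M - N) :=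
  fun k hk => by rw [map_sub, hM k hk, hN k hk, sub_zero]

lemma OrdGE.smul {p : ℤ} {M : L} (r : ℂ) (hM : OrdGE c p M) : OrdGE c p (r • M) :=
  fun k hk => by rw [map_smul, hM k hk, smul_zero]

lemma OrdGE.zero {p : ℤ} : OrdGE c p (0 : L) := fun _ _ => map_zero _

lemma OrdGE.sum {ι : Type*} (s : Finset ι) {p : ℤ} {M : ι → L} (hM : ∀ i ∈ s, OrdGE c p (M i)) :
    OrdGE c p (∑ i ∈ s, M i) :=
  fun k hk => by rw [map_sum]; exact Finset.sum_eq_zero (fun i hi => hM i hi k hk)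

/-- Elements of order at least `p` in `𝓖`. -/
def ordSub (c : ℤ → L →ₗ[ℂ] V) (𝓖 : Submodule ℂ L) (p : ℤ) : Submodule ℂ L where
  carrier := {M | M ∈ 𝓖 ∧ OrdGE c p M}
  add_mem' := fun h h' => ⟨𝓖.add_mem h.1 h'.1, h.2.add h'.2⟩
  zero_mem' := ⟨𝓖.zero_mem, OrdGE.zero⟩
  smul_mem' := fun r _ h => ⟨𝓖.smul_mem r h.1, h.2.smul r⟩

lemma mem_ordSub {𝓖 : Submodule ℂ L} {p : ℤ} {M : L} :
    M ∈ ordSub c 𝓖 p ↔ M ∈ 𝓖 ∧ OrdGE c p M := Iff.rfl

/-- Hypotheses on the generators. -/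
structure Gen (c : ℤ → L →ₗ[ℂ] V) (𝓖 : Submodule ℂ L) (e : Fin 3 → V) (κ : ℂ)
    (E : Fin 3 → L) : Prop where
  isCoeff : IsCoeff c
  lie_mem : ∀ X ∈ 𝓖, ∀ Y ∈ 𝓖, ⁅X, Y⁆ ∈ 𝓖
  linInd : LinearIndependent ℂ e
  kappa : κ ≠ 0
  rel : ∀ i, ⁅e (i + 1), e (i + 2)⁆ = κ • e i
  span : ∀ M ∈ 𝓖, ∀ k, c k M ∈ Submodule.span ℂ (Set.range e)
  mem : ∀ i, E i ∈ 𝓖
  ord : ∀ i, OrdGE c (-1) (E i)
  lead : ∀ i, c (-1) (E i) = e i

variable {𝓖 : Submodule ℂ L} {e : Fin 3 → V} {κ : ℂ} {E : Fin 3 → L}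

lemma Gen.xs_mem (hG : Gen c 𝓖 e κ E) (a : ℕ) : ∀ i, xs E a i ∈ 𝓖 := by
  induction a with
  | zero => intro i; exact 𝓖.zero_mem
  | succ a ih =>
    intro i
    rcases Nat.eq_zero_or_pos a with rfl | ha
    · exact hG.mem i
    · rw [xs_succ E ha]; exact hG.lie_mem _ (hG.mem _) _ (ih _)

lemma Gen.xs_lead (hG : Gen c 𝓖 e κ E) (a : ℕ) : ∀ i, OrdGE c (-((a + 1 : ℕ) : ℤ)) (xs E (a + 1) i) ∧
      c (-((a + 1 : ℕ) : ℤ)) (xs E (a + 1) i) = κ ^ a • e i := by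
  induction a with
  | zero =>
    intro i
    refine ⟨hG.ord i, ?_⟩
    rw [pow_zero, one_smul]
    exact hG.lead i
  | succ a ih =>
    intro i
    rw [xs_succ E (by omega : 1 ≤ a + 1)]
    obtain ⟨h1, h2⟩ := ih (i + 2)
    have e1 : (-((a + 1 + 1 : ℕ) : ℤ)) = -1 + -((a + 1 : ℕ) : ℤ) := by push_cast; ring
    rw [e1]
    refine ⟨hG.isCoeff.lie (hG.ord _) h1, ?_⟩
    rw [hG.isCoeff.coeff_lie (hG.ord _) h1, hG.lead, h2, lie_smul, hG.rel, smul_smul, pow_succ]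

lemma Gen.xs_ord (hG : Gen c 𝓖 e κ E) (a : ℕ) (i : Fin 3) : OrdGE c (-(a : ℤ)) (xs E a i) := by
  rcases a with _ | a
  · exact OrdGE.zero
  · exact (hG.xs_lead a i).1

lemma Gen.SpAll_le (hG : Gen c 𝓖 e κ E) : SpAll E ≤ 𝓖 := by
  rw [SpAll, Submodule.span_le]
  rintro _ ⟨a, i, rfl⟩
  exact hG.xs_mem a i

lemma Gen.Sp_ord (hG : Gen c 𝓖 e κ E) (m : ℕ) {y : L} (hy : y ∈ Sp E m) :
    OrdGE c (-(m : ℤ)) y := by
  induction hy using Submodule.span_induction with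
  | mem y hy =>
    obtain ⟨a, ha, i, rfl⟩ := hy
    exact (hG.xs_ord a i).mono (by omega)
  | zero => exact OrdGE.zero
  | add y z _ _ h h' => exact h.add h'
  | smul r y _ h => exact h.smul r

/-- decomposition of elements of `Sp E (m+1)` -/
lemma Sp_succ_dec (E : Fin 3 → L) (m : ℕ) {y : L} (hy : y ∈ Sp E (m + 1)) :
    ∃ d : Fin 3 → ℂ, ∃ w ∈ Sp E m, y = ∑ i, d i • xs E (m + 1) i + w := by
  induction hy using Submodule.span_induction with
  | mem y hy =>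
    obtain ⟨a, ha, i, rfl⟩ := hy
    rcases Nat.lt_or_ge m a with h | h
    · have : a = m + 1 := by omega
      subst this
      refine ⟨Pi.single i 1, 0, zero_mem _, ?_⟩
      rw [Finset.sum_eq_single i]
      · simp
      · intro j _ hj; simp [hj]
      · simp
    · exact ⟨0, _, xs_mem E h i, by simp⟩
  | zero => exact ⟨0, 0, zero_mem _, by simp⟩
  | add y z _ _ h h' =>
    obtain ⟨d, w, hw, rfl⟩ := h
    obtain ⟨d', w', hw', rfl⟩ := h'
    refine ⟨d + d', w + w', add_mem hw hw', ?_⟩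
    simp only [Pi.add_apply, add_smul, Finset.sum_add_distrib]
    abel
  | smul r y _ h =>
    obtain ⟨d, w, hw, rfl⟩ := h
    refine ⟨r • d, r • w, Submodule.smul_mem _ r hw, ?_⟩
    simp only [Pi.smul_apply, smul_eq_mul, mul_smul, smul_add, Finset.smul_sum]

lemma Sp_zero (E : Fin 3 → L) : Sp E 0 = ⊥ := by
  rw [Sp, Submodule.span_eq_bot]
  rintro _ ⟨a, ha, i, rfl⟩
  have : a = 0 := by omega
  subst this
  rfl

/-- An element of `Sp E (m+1)` of order at least `-m` belongs to `Sp E m`. -/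
lemma Gen.Sp_drop (hG : Gen c 𝓖 e κ E) (m : ℕ) {y : L} (hy : y ∈ Sp E (m + 1))
    (h0 : OrdGE c (-(m : ℤ)) y) : y ∈ Sp E m := by
  obtain ⟨d, w, hw, rfl⟩ := Sp_succ_dec E m hy
  have hcoef : c (-((m + 1 : ℕ) : ℤ)) (∑ i, d i • xs E (m + 1) i + w) = 0 :=
    h0 _ (by push_cast; omega)
  rw [map_add, hG.Sp_ord m hw _ (by push_cast; omega), add_zero, map_sum] at hcoef
  simp only [map_smul, (hG.xs_lead m _).2] at hcoef
  have hc : ∀ i, d i * κ ^ m = 0 := by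
    apply Fintype.linearIndependent_iff.1 hG.linInd
    rw [← hcoef]
    apply Finset.sum_congr rfl
    intro i _
    rw [mul_smul]
  have hc0 : ∀ i, d i = 0 := fun i =>
    (mul_eq_zero.1 (hc i)).resolve_right (pow_ne_zero _ hG.kappa)
  have : (∑ i, d i • xs E (m + 1) i + w) = w := by simp [hc0]
  rwa [this]

lemma Gen.Sp_inter (hG : Gen c 𝓖 e κ E) (m : ℕ) : ∀ y ∈ Sp E m, OrdGE c 0 y → y = 0 := by
  induction m with
  | zero =>
    intro y hy _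
    rwa [Sp_zero, Submodule.mem_bot] at hy
  | succ m ih =>
    intro y hy hy0
    exact ih y (hG.Sp_drop m hy (hy0.mono (by omega))) hy0

/-- Every element of `𝓖` of order at least `-m` is in `Taylor + Sp E m`. -/
lemma Gen.ord_le (hG : Gen c 𝓖 e κ E) (m : ℕ) : ∀ y ∈ 𝓖, OrdGE c (-(m : ℤ)) y →
    ∃ z ∈ Sp E m, y - z ∈ ordSub c 𝓖 0 := by
  induction m with
  | zero =>
    intro y hy h0
    exact ⟨0, zero_mem _, by rw [sub_zero]; exact ⟨hy, by simpa using h0⟩⟩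
  | succ m ih =>
    intro y hy hy0
    have h1 := hG.span y hy (-((m + 1 : ℕ) : ℤ))
    rw [Submodule.mem_span_range_iff_exists_fun] at h1
    obtain ⟨d, hd⟩ := h1
    set z := ∑ i, (d i * (κ ^ m)⁻¹) • xs E (m + 1) i with hz
    have hzS : z ∈ Sp E (m + 1) :=
      Submodule.sum_mem _ (fun i _ => Submodule.smul_mem _ _ (Q8.Loop.xs_mem E le_rfl i))
    have hz𝓖 : z ∈ 𝓖 := Submodule.sum_mem _ (fun i _ => Submodule.smul_mem _ _ (hG.xs_mem _ i))
    have hzO : OrdGE c (-((m + 1 : ℕ) : ℤ)) z :=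
      OrdGE.sum _ (fun i _ => (hG.xs_lead m i).1.smul _)
    have hzc : c (-((m + 1 : ℕ) : ℤ)) z = c (-((m + 1 : ℕ) : ℤ)) y := by
      rw [← hd, hz, map_sum]
      apply Finset.sum_congr rfl
      intro i _
      rw [map_smul, (hG.xs_lead m i).2, smul_smul, mul_assoc,
        inv_mul_cancel₀ (pow_ne_zero _ hG.kappa), mul_one]
    have h3 := (hy0.sub hzO).succ (by rw [map_sub, hzc, sub_self])
    have e1 : (-((m + 1 : ℕ) : ℤ)) + 1 = -(m : ℤ) := by push_cast; ring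
    rw [e1] at h3
    obtain ⟨z', hz', h4⟩ := ih _ (𝓖.sub_mem hy hz𝓖) h3
    exact ⟨z + z', add_mem hzS (Sp_mono E (by omega) hz'), by rwa [← sub_sub]⟩

/-- The decomposition. -/
theorem Gen.decomp (hG : Gen c 𝓖 e κ E) :
    Disjoint (ordSub c 𝓖 0) (SpAll E) ∧ ordSub c 𝓖 0 ⊔ SpAll E = 𝓖 := by
  constructor
  · rw [Submodule.disjoint_def]
    intro y hy hy'
    obtain ⟨m, hm⟩ := SpAll_exists E hy'
    exact hG.Sp_inter m y hm hy.2
  · apply le_antisymm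
    · exact sup_le (fun y hy => hy.1) hG.SpAll_le
    · intro y hy
      obtain ⟨a, ha⟩ := hG.isCoeff.bdd y
      obtain ⟨z, hz, h⟩ := hG.ord_le a y hy ha
      have := Submodule.add_mem_sup h (Sp_le_SpAll E a hz)
      rwa [sub_add_cancel] at this

/-- The Lie subalgebra generated by the `E i` is factoring as soon as `R3` holds. -/
theorem Gen.factoring (hG : Gen c 𝓖 e κ E) (hR : R3 E) :
    Disjoint (ordSub c 𝓖 0) (LieSubalgebra.lieSpan ℂ L (Set.range E)).toSubmodule ∧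
      ordSub c 𝓖 0 ⊔ (LieSubalgebra.lieSpan ℂ L (Set.range E)).toSubmodule = 𝓖 := by
  rw [lieSpan_eq E hR]
  exact hG.decomp

end Q8.Loop
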