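import Pool.Agent.Q8.Loop.Core

/-!
Induction: the relations of length three imply all the others, so that the Lie algebra generated by
`E 0, E 1, E 2` is spanned by the `xs E a i`.
-/

namespace Q8.Loop

variable {L : Type*} [LieRing L] [LieAlgebra ℂ L]

lemma f11 (i : Fin 3) : i + 1 + 1 = i + 2 := by revert i; decide
lemma f12 (i : Fin 3) : i + 1 + 2 = i := by revert i; decide
lemma f21 (i : Fin 3) : i + 2 + 1 = i := by revert i; decide
lemma f22 (i : Fin 3) : i + 2 + 2 = i + 1 := by revert i; decide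

/-- The relations of length three. -/
def R3 (E : Fin 3 → L) : Prop :=
  (∀ i, ⁅E i, xs E 2 i⁆ ∈ Sp E 2) ∧ (∀ i, ⁅E (i + 1), xs E 2 i⁆ + ⁅E i, xs E 2 (i + 1)⁆ ∈ Sp E 2)

lemma P_small (E : Fin 3 → L) {m : ℕ} (hm : m ≤ 1) : P E m := by
  intro a b ha hb hab
  omega

lemma P_two (E : Fin 3 → L) : P E 2 := by
  intro a b ha hb hab i
  have ha : a = 1 := by omega
  have hb : b = 1 := by omega
  subst ha hb
  have h3 : i + 2 + 1 = i := f21 i
  have h4 : i + 2 + 2 = i + 1 := f22 i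
  have hx : xs E 2 (i + 2) = ⁅E i, E (i + 1)⁆ := by
    change ⁅E (i + 2 + 1), E (i + 2 + 2)⁆ = _
    rw [h3, h4]
  refine ⟨?_, ?_, ?_⟩
  · rw [hx]; simp [xs]
  · rw [hx]
    change ⁅E (i + 1), E i⁆ + ⁅E i, E (i + 1)⁆ ∈ _
    rw [← lie_skew (E (i + 1)) (E i), neg_add_cancel]
    exact zero_mem _
  · simp

lemma P_three (E : Fin 3 → L) (h : R3 E) : P E 3 := by
  intro a b ha hb hab i
  have h3 : i + 2 + 1 = i := f21 i
  have h4 : i + 2 + 2 = i + 1 := f22 i
  have hx : xs E 3 (i + 2) = ⁅E i, xs E 2 (i + 1)⁆ := by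
    rw [xs_succ E (by norm_num) (i + 2), h3, h4]
  have hc : (a = 1 ∧ b = 2) ∨ (a = 2 ∧ b = 1) := by omega
  rcases hc with ⟨rfl, rfl⟩ | ⟨rfl, rfl⟩
  · refine ⟨?_, ?_, ?_⟩
    · rw [hx]; change ⁅E i, xs E 2 (i + 1)⁆ - _ ∈ _; simp
    · rw [hx]; exact h.2 i
    · exact h.1 i
  · refine ⟨?_, ?_, ?_⟩
    · rw [hx]
      change ⁅xs E 2 i, E (i + 1)⁆ - _ ∈ _
      have := Submodule.neg_mem _ (h.2 i)
      rw [neg_add, lie_skew, ← sub_eq_add_neg] at this
      exact this
    · rw [hx]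
      change ⁅xs E 2 (i + 1), E i⁆ + _ ∈ _
      rw [← lie_skew, neg_add_cancel]
      exact zero_mem _
    · change ⁅xs E 2 i, E i⁆ ∈ _
      rw [← lie_skew]
      exact Submodule.neg_mem _ (h.1 i)

lemma P_step (E : Fin 3 → L) {m : ℕ} (hm : 4 ≤ m) (ih : ∀ k, k < m → P E k) : P E m := by
  classical
  set S := Sp E (m - 1) with hS
  let B : ℕ → Fin 3 → Fin 3 → L ⧸ S := fun a i j => S.mkQ ⁅xs E a i, xs E (m - a) j⁆
  have ih' : ∀ k, k ≤ m - 1 → P E k := fun k hk => ih k (by omega)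
  have hlow : ∀ c k (y : L) p, 1 ≤ c → p + c ≤ m - 1 → y ∈ Sp E p →
      S.mkQ ⁅xs E c k, y⁆ = 0 := by
    intro c k y p hc hp hy
    rw [Submodule.mkQ_apply, Submodule.Quotient.mk_eq_zero]
    have := Sp_lie E (m - 1) ih' (p := c) (q := p) (by omega) (xs_mem E le_rfl k) hy
    exact Sp_mono E (by omega) this
  -- the three rewriting rules
  have r1 : ∀ a b c, 1 ≤ a → 1 ≤ b → 1 ≤ c → a + b + c = m → ∀ i k,
      S.mkQ ⁅xs E c k, ⁅xs E a i, xs E b (i + 1)⁆⁆ = B c k (i + 2) := by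
    intro a b c ha hb hc habc i k
    have h1 := (ih (a + b) (by omega) a b ha hb rfl i).1
    have h2 := hlow c k _ (a + b - 1) hc (by omega) h1
    rw [lie_sub, map_sub, sub_eq_zero] at h2
    rw [h2]
    change _ = S.mkQ ⁅xs E c k, xs E (m - c) (i + 2)⁆
    rw [show m - c = a + b by omega]
  have r2 : ∀ a b c, 1 ≤ a → 1 ≤ b → 1 ≤ c → a + b + c = m → ∀ i k,
      S.mkQ ⁅xs E c k, ⁅xs E a (i + 1), xs E b i⁆⁆ = - B c k (i + 2) := by
    intro a b c ha hb hc habc i k
    have h1 := (ih (a + b) (by omega) a b ha hb rfl i).2.1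
    have h2 := hlow c k _ (a + b - 1) hc (by omega) h1
    rw [lie_add, map_add, add_eq_zero_iff_eq_neg] at h2
    rw [h2]
    change _ = - S.mkQ ⁅xs E c k, xs E (m - c) (i + 2)⁆
    rw [show m - c = a + b by omega]
  have r3 : ∀ a b c, 1 ≤ a → 1 ≤ b → 1 ≤ c → a + b + c = m → ∀ i k,
      S.mkQ ⁅xs E c k, ⁅xs E a i, xs E b i⁆⁆ = 0 := by
    intro a b c ha hb hc habc i k
    have h1 := (ih (a + b) (by omega) a b ha hb rfl i).2.2
    exact hlow c k _ (a + b - 1) hc (by omega) h1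
  have hA : ∀ a, 1 ≤ a → a < m → ∀ i j, B a i j = - B (m - a) j i := by
    intro a ha ham i j
    change S.mkQ ⁅xs E a i, xs E (m - a) j⁆ = - S.mkQ ⁅xs E (m - a) j, xs E (m - (m - a)) i⁆
    rw [show m - (m - a) = a by omega, ← map_neg, lie_skew]
  have hJ1 : ∀ a b c, 1 ≤ a → 1 ≤ b → 1 ≤ c → a + b + c = m → ∀ i : Fin 3,
      B a i i + B b (i + 1) (i + 1) + B c (i + 2) (i + 2) = 0 := by
    intro a b c ha hb hc habc i
    have hj := congrArg S.mkQ (lie_jacobi (xs E a i) (xs E b (i + 1)) (xs E c (i + 2)))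
    rw [map_add, map_add, map_zero] at hj
    have e1 : i + 1 + 1 = i + 2 := f11 i
    have e2 : i + 1 + 2 = i := f12 i
    have e3 : i + 2 + 1 = i := f21 i
    have e4 : i + 2 + 2 = i + 1 := f22 i
    have f1 := r1 b c a hb hc ha (by omega) (i + 1) i
    have f2 := r1 c a b hc ha hb (by omega) (i + 2) (i + 1)
    have f3 := r1 a b c ha hb hc (by omega) i (i + 2)
    rw [e1, e2] at f1
    rw [e3, e4] at f2
    rw [f1, f2, f3] at hj
    exact hj
  have hJ2 : ∀ a b c, 1 ≤ a → 1 ≤ b → 1 ≤ c → a + b + c = m → ∀ i : Fin 3,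
      B a i (i + 2) = B b i (i + 2) := by
    intro a b c ha hb hc habc i
    have hj := congrArg S.mkQ (lie_jacobi (xs E a i) (xs E b i) (xs E c (i + 1)))
    rw [map_add, map_add, map_zero] at hj
    have f1 := r1 b c a hb hc ha (by omega) i i
    have f2 := r2 c a b hc ha hb (by omega) i i
    have f3 := r3 a b c ha hb hc (by omega) i (i + 1)
    rw [f1, f2, f3, add_zero, ← sub_eq_add_neg, sub_eq_zero] at hj
    exact hj
  have hJ3 : ∀ a b c, 1 ≤ a → 1 ≤ b → 1 ≤ c → a + b + c = m → ∀ i : Fin 3,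
      B a i (i + 1) = B b i (i + 1) := by
    intro a b c ha hb hc habc i
    have hj := congrArg S.mkQ (lie_jacobi (xs E a i) (xs E b i) (xs E c (i + 2)))
    rw [map_add, map_add, map_zero] at hj
    have e3 : i + 2 + 1 = i := f21 i
    have e4 : i + 2 + 2 = i + 1 := f22 i
    have f1 := r2 b c a hb hc ha (by omega) (i + 2) i
    have f2 := r1 c a b hc ha hb (by omega) (i + 2) i
    have f3 := r3 a b c ha hb hc (by omega) i (i + 2)
    rw [e3, e4] at f1 f2
    rw [f1, f2, f3, add_zero, neg_add_eq_zero] at hj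
    exact hj
  have hfin := linear_lemma m hm B hA hJ1 hJ2 hJ3
  intro a b ha hb hab i
  obtain ⟨g1, g2, g3⟩ := hfin a ha (by omega) i
  have hb' : m - a = b := by omega
  have e3 : i + 2 + 1 = i := f21 i
  have e4 : i + 2 + 2 = i + 1 := f22 i
  have hx : S.mkQ (xs E m (i + 2)) = B 1 i (i + 1) := by
    obtain ⟨k, rfl⟩ := Nat.exists_eq_add_of_le (by omega : 1 ≤ m)
    rw [add_comm 1 k, xs_succ E (by omega) (i + 2), e3, e4]
    change S.mkQ _ = S.mkQ ⁅xs E 1 i, xs E (1 + k - 1) (i + 1)⁆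
    rw [show 1 + k - 1 = k by omega]
    rfl
  refine ⟨?_, ?_, ?_⟩
  · rw [← Submodule.Quotient.mk_eq_zero, ← Submodule.mkQ_apply, map_sub, hx, ← g2, sub_eq_zero]
    change _ = S.mkQ ⁅xs E a i, xs E (m - a) (i + 1)⁆
    rw [hb']
  · rw [← Submodule.Quotient.mk_eq_zero, ← Submodule.mkQ_apply, map_add, hx]
    rw [← neg_neg (B 1 i (i + 1)), ← g3, ← sub_eq_add_neg, sub_eq_zero]
    change _ = S.mkQ ⁅xs E a (i + 1), xs E (m - a) i⁆
    rw [hb']
  · rw [← Submodule.Quotient.mk_eq_zero, ← Submodule.mkQ_apply]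
    change S.mkQ ⁅xs E a i, xs E (m - a) i⁆ = 0 at g1
    rw [hb'] at g1
    exact g1

theorem P_all (E : Fin 3 → L) (h : R3 E) (m : ℕ) : P E m := by
  induction m using Nat.strong_induction_on with
  | _ m ih =>
    rcases Nat.lt_or_ge m 4 with hm | hm
    · interval_cases m
      · exact P_small E (by norm_num)
      · exact P_small E (by norm_num)
      · exact P_two E
      · exact P_three E h
    · exact P_step E hm ih

/-- span of all `xs E a i` -/
def SpAll (E : Fin 3 → L) : Submodule ℂ L :=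
  Submodule.span ℂ {y | ∃ a, ∃ i, y = xs E a i}

lemma SpAll_exists (E : Fin 3 → L) {y : L} (hy : y ∈ SpAll E) : ∃ m, y ∈ Sp E m := by
  induction hy using Submodule.span_induction with
  | mem y hy =>
    obtain ⟨a, i, rfl⟩ := hy
    exact ⟨a, xs_mem E le_rfl i⟩
  | zero => exact ⟨0, Submodule.zero_mem _⟩
  | add y z _ _ h h' =>
    obtain ⟨m, h⟩ := h
    obtain ⟨n, h'⟩ := h'
    exact ⟨max m n, Submodule.add_mem _ (Sp_mono E (le_max_left _ _) h)
      (Sp_mono E (le_max_right _ _) h')⟩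
  | smul c y _ h =>
    obtain ⟨m, h⟩ := h
    exact ⟨m, Submodule.smul_mem _ c h⟩

lemma Sp_le_SpAll (E : Fin 3 → L) (m : ℕ) : Sp E m ≤ SpAll E := by
  apply Submodule.span_mono
  rintro y ⟨a, _, i, rfl⟩
  exact ⟨a, i, rfl⟩

/-- The Lie subalgebra generated by the `E i` is the span of the `xs E a i`. -/
theorem lieSpan_eq (E : Fin 3 → L) (h : R3 E) :
    (LieSubalgebra.lieSpan ℂ L (Set.range E)).toSubmodule = SpAll E := by
  apply le_antisymm
  · let U : LieSubalgebra ℂ L :=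
      { SpAll E with
        lie_mem' := by
          intro x y hx hy
          obtain ⟨m, hm⟩ := SpAll_exists E hx
          obtain ⟨n, hn⟩ := SpAll_exists E hy
          exact Sp_le_SpAll E _ (Sp_lie E (m + n) (fun k _ => P_all E h k) le_rfl hm hn) }
    have : LieSubalgebra.lieSpan ℂ L (Set.range E) ≤ U := by
      rw [LieSubalgebra.lieSpan_le]
      rintro _ ⟨i, rfl⟩
      exact Submodule.subset_span ⟨1, i, rfl⟩
    exact this
  · rw [SpAll, Submodule.span_le]
    rintro _ ⟨a, i, rfl⟩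
    have key : ∀ a i, xs E a i ∈ LieSubalgebra.lieSpan ℂ L (Set.range E) := by
      intro a
      induction a with
      | zero => intro i; exact zero_mem _
      | succ a ih =>
        intro i
        rcases Nat.eq_zero_or_pos a with rfl | ha
        · exact LieSubalgebra.subset_lieSpan ⟨i, rfl⟩
        · rw [xs_succ E ha]
          exact LieSubalgebra.lie_mem _ (LieSubalgebra.subset_lieSpan ⟨_, rfl⟩) (ih _)
    exact key a i

end Q8.Loop
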