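import Pool.Agent.Q8.Loop.Filt

/-!
Matrices of Laurent series as a complex Lie algebra, with their coefficient maps.
-/

set_option linter.unusedSectionVars false

noncomputable section

namespace Q8.Loop

variable {n : Type*} [Fintype n] [DecidableEq n]

/-- Square matrices over the field `ℂ((λ))` of formal Laurent series. -/
def LMat (n : Type*) := Matrix n n (LaurentSeries ℂ)

/-- Complex square matrices. -/
def CMat (n : Type*) := Matrix n n ℂ

/-- the commutator bracket on matrices over `ℂ((λ))` -/
instance : LieRing (LMat n) := LieRing.ofAssociativeRing (A := Matrix n n (LaurentSeries ℂ))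

attribute [local instance 100] LieRing.ofAssociativeRing in
attribute [local instance 10000] HahnSeries.instAlgebra in
instance : LieAlgebra ℂ (LMat n) :=
  LieAlgebra.ofAssociativeAlgebra (R := ℂ) (A := Matrix n n (LaurentSeries ℂ))

/-- the commutator bracket on complex matrices -/
instance : LieRing (CMat n) := LieRing.ofAssociativeRing (A := Matrix n n ℂ)

attribute [local instance 100] LieRing.ofAssociativeRing in
instance : LieAlgebra ℂ (CMat n) :=
  LieAlgebra.ofAssociativeAlgebra (R := ℂ) (A := Matrix n n ℂ)

/-- entry of a matrix of Laurent series -/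
def LMat.entry (M : LMat n) (i j : n) : LaurentSeries ℂ := M i j

/-- entry of a complex matrix -/
def CMat.entry (M : CMat n) (i j : n) : ℂ := M i j

@[ext] lemma LMat.ext {M N : LMat n} (h : ∀ i j, M.entry i j = N.entry i j) : M = N :=
  Matrix.ext h

@[ext] lemma CMat.ext {M N : CMat n} (h : ∀ i j, M.entry i j = N.entry i j) : M = N :=
  Matrix.ext h

lemma LMat.entry_lie (M N : LMat n) (i j : n) :
    (⁅M, N⁆ : LMat n).entry i j = ∑ k, M.entry i k * N.entry k j -
      ∑ k, N.entry i k * M.entry k j := by
  have key : ∀ A B : Matrix n n (LaurentSeries ℂ), (A * B - B * A) i j =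
    ∑ k, A i k * B k j - ∑ k, B i k * A k j := by
    intro A B
    rw [Matrix.sub_apply, Matrix.mul_apply, Matrix.mul_apply]
  exact key M N

lemma CMat.entry_lie (M N : CMat n) (i j : n) :
    (⁅M, N⁆ : CMat n).entry i j = ∑ k, M.entry i k * N.entry k j -
      ∑ k, N.entry i k * M.entry k j := by
  have key : ∀ A B : Matrix n n ℂ, (A * B - B * A) i j =
    ∑ k, A i k * B k j - ∑ k, B i k * A k j := by
    intro A B
    rw [Matrix.sub_apply, Matrix.mul_apply, Matrix.mul_apply]
  exact key M N

@[simp] lemma LMat.entry_add (M N : LMat n) (i j : n) :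
    (M + N).entry i j = M.entry i j + N.entry i j := rfl
@[simp] lemma LMat.entry_sub (M N : LMat n) (i j : n) :
    (M - N).entry i j = M.entry i j - N.entry i j := rfl
@[simp] lemma LMat.entry_smul (r : ℂ) (M : LMat n) (i j : n) :
    (r • M).entry i j = r • M.entry i j := rfl
@[simp] lemma LMat.entry_zero (i j : n) : (0 : LMat n).entry i j = 0 := rfl
@[simp] lemma LMat.entry_neg (M : LMat n) (i j : n) : (-M).entry i j = - M.entry i j := rfl

@[simp] lemma CMat.entry_add (M N : CMat n) (i j : n) :
    (M + N).entry i j = M.entry i j + N.entry i j := rfl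
@[simp] lemma CMat.entry_sub (M N : CMat n) (i j : n) :
    (M - N).entry i j = M.entry i j - N.entry i j := rfl
@[simp] lemma CMat.entry_smul (r : ℂ) (M : CMat n) (i j : n) :
    (r • M).entry i j = r • M.entry i j := rfl
@[simp] lemma CMat.entry_zero (i j : n) : (0 : CMat n).entry i j = 0 := rfl
@[simp] lemma CMat.entry_neg (M : CMat n) (i j : n) : (-M).entry i j = - M.entry i j := rfl

/-- The coefficient of `λ ^ k` of a matrix of Laurent series. -/
def coeffM (k : ℤ) : LMat n →ₗ[ℂ] CMat n where
  toFun M := (fun i j => (M.entry i j).coeff k : Matrix n n ℂ)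
  map_add' M N := by
    apply CMat.ext
    intro i j
    change ((M + N).entry i j).coeff k = (M.entry i j).coeff k + (N.entry i j).coeff k
    simp
  map_smul' r M := by
    apply CMat.ext
    intro i j
    change ((r • M).entry i j).coeff k = r • (M.entry i j).coeff k
    simp

@[simp] lemma coeffM_entry (k : ℤ) (M : LMat n) (i j : n) :
    (coeffM k M).entry i j = (M.entry i j).coeff k := rfl

lemma coeff_mul_lt {f g : LaurentSeries ℂ} {p q k : ℤ} (hf : ∀ k < p, f.coeff k = 0)
    (hg : ∀ k < q, g.coeff k = 0) (hk : k < p + q) : (f * g).coeff k = 0 := by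
  rw [HahnSeries.coeff_mul]
  apply Finset.sum_eq_zero
  intro ij hij
  rw [Finset.mem_antidiagonal] at hij
  rcases lt_or_ge ij.1 p with h | h
  · rw [hf _ h, zero_mul]
  · rw [hg ij.2 (by omega), mul_zero]

lemma coeff_mul_eq {f g : LaurentSeries ℂ} {p q : ℤ} (hf : ∀ k < p, f.coeff k = 0)
    (hg : ∀ k < q, g.coeff k = 0) : (f * g).coeff (p + q) = f.coeff p * g.coeff q := by
  rw [HahnSeries.coeff_mul]
  by_cases hp : f.coeff p = 0
  · rw [hp, zero_mul]
    apply Finset.sum_eq_zero
    intro ij hij
    rw [Finset.mem_antidiagonal] at hij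
    rcases lt_or_ge ij.1 p with h | h
    · rw [hf _ h, zero_mul]
    · rcases lt_or_ge ij.2 q with h' | h'
      · rw [hg _ h', mul_zero]
      · rw [show ij.1 = p by omega, hp, zero_mul]
  by_cases hq : g.coeff q = 0
  · rw [hq, mul_zero]
    apply Finset.sum_eq_zero
    intro ij hij
    rw [Finset.mem_antidiagonal] at hij
    rcases lt_or_ge ij.1 p with h | h
    · rw [hf _ h, zero_mul]
    · rcases lt_or_ge ij.2 q with h' | h'
      · rw [hg _ h', mul_zero]
      · rw [show ij.2 = q by omega, hq, mul_zero]
  rw [Finset.sum_eq_single (p, q)]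
  · intro ij hij hne
    rw [Finset.mem_antidiagonal] at hij
    rcases lt_or_ge ij.1 p with h | h
    · rw [hf _ h, zero_mul]
    · rcases lt_or_ge ij.2 q with h' | h'
      · rw [hg _ h', mul_zero]
      · exfalso
        apply hne
        have h1 : ij.1 = p := by omega
        have h2 : ij.2 = q := by omega
        rw [← h1, ← h2]
  · intro h
    exfalso
    apply h
    rw [Finset.mem_antidiagonal]
    exact ⟨hp, hq, rfl⟩

lemma ordGE_iff {p : ℤ} {M : LMat n} :
    OrdGE (coeffM (n := n)) p M ↔ ∀ i j, ∀ k < p, (M.entry i j).coeff k = 0 := by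
  constructor
  · intro h i j k hk
    have h1 := congrArg (fun A : CMat n => A.entry i j) (h k hk)
    exact h1
  · intro h k hk
    ext i j
    exact h i j k hk

lemma isCoeff : IsCoeff (coeffM (n := n)) where
  lie := by
    intro p q M N hM hN
    rw [ordGE_iff] at hM hN ⊢
    intro i j k hk
    rw [LMat.entry_lie, HahnSeries.coeff_sub, HahnSeries.coeff_sum, HahnSeries.coeff_sum,
      Finset.sum_eq_zero (fun l _ => coeff_mul_lt (hM i l) (hN l j) hk),
      Finset.sum_eq_zero (fun l _ => coeff_mul_lt (hN i l) (hM l j) (by omega)), sub_zero]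
  coeff_lie := by
    intro p q M N hM hN
    rw [ordGE_iff] at hM hN
    ext i j
    rw [coeffM_entry, LMat.entry_lie, HahnSeries.coeff_sub, HahnSeries.coeff_sum,
      HahnSeries.coeff_sum, CMat.entry_lie,
      Finset.sum_congr rfl (fun l _ => coeff_mul_eq (hM i l) (hN l j))]
    congr 1
    rw [add_comm p q]
    exact Finset.sum_congr rfl (fun l _ => coeff_mul_eq (hN i l) (hM l j))
  bdd := by
    intro M
    have h1 : ∀ i j, ∃ a : ℕ, ∀ k < -(a : ℤ), (M.entry i j).coeff k = 0 := by
      intro i j
      refine ⟨(-(M.entry i j).order).toNat, ?_⟩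
      intro k hk
      apply HahnSeries.coeff_eq_zero_of_lt_order
      omega
    choose f hf using h1
    refine ⟨Finset.univ.sup (fun i => Finset.univ.sup (fun j => f i j)), ?_⟩
    rw [ordGE_iff]
    intro i j k hk
    apply hf i j
    have h2 : f i j ≤ Finset.univ.sup (fun i => Finset.univ.sup (fun j => f i j)) :=
      (Finset.le_sup (f := fun j => f i j) (Finset.mem_univ j)).trans
        (Finset.le_sup (f := fun i => Finset.univ.sup (fun j => f i j)) (Finset.mem_univ i))
    omega

end Q8.Loop
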